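import Pool.Agent.H.MP_102303_co.Data

set_option autoImplicit false

namespace Pool.Agent.H.MP_102303_co

theorem RR_val : RR vL vL [0, 0, 0] = 246720831121699577532684343296 := by decide +kernel

theorem NN_val : NN bL tT aL aL tL = 87129962572730 := by
  decide +kernel

end Pool.Agent.H.MP_102303_co
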