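import Pool.Agent.H.MP_102303_co.Data

set_option autoImplicit false

namespace Pool.Agent.H.MP_102303_co

theorem SS_val1 : SS tL cL.tail.tail 4 (List.replicate 15 1)
    (List.zipWith Int.mul (List.zipWith Int.mul (List.replicate 45 1) cb0) cb1) =
    18292207792548385519887323553460503408 := by
  decide +kernel

end Pool.Agent.H.MP_102303_co
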