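import Pool.Agent.H.MP_102303_co.Data

set_option autoImplicit false

namespace Pool.Agent.H.MP_102303_co

theorem SS_val3 : SS tL cL.tail 3 (List.zipWith Int.mul (List.replicate 15 1) ca0)
    (List.replicate 45 1) =
    2135035127057278958470259779782131856 := by
  decide +kernel

end Pool.Agent.H.MP_102303_co
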