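import Mathlib

set_option autoImplicit false

namespace Pool.Agent.H.MP_102303_co

noncomputable def fz {α : Type} (x : ℤ) (k : ℤ → α) : α :=
  Int.rec (fun n => Nat.rec (k (Int.ofNat 0)) (fun m _ => k (Int.ofNat (Nat.succ m))) n)
    (fun n => Nat.rec (k (Int.negSucc 0)) (fun m _ => k (Int.negSucc (Nat.succ m))) n) x

noncomputable def dotA (l1 : List ℤ) : List ℤ → ℤ → ℤ :=
  List.rec (fun _ acc => acc) (fun a _ ih l2 acc =>
    List.rec acc (fun b r _ => Int.add (Int.mul a b) (ih r acc)) l2) l1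

noncomputable def zipK {α : Type} (f : ℤ → ℤ → ℤ) (l1 : List ℤ) : List ℤ → (List ℤ → α) → α :=
  List.rec (fun _ k => k []) (fun a _ ih l2 k =>
    List.rec (k []) (fun b r _ => fz (f a b) fun c => ih r fun l => k (c :: l)) l2) l1

noncomputable def mapK {α β : Type} (f : β → ℤ) (l1 : List β) : (List ℤ → α) → α :=
  List.rec (fun k => k []) (fun a _ ih k => fz (f a) fun c => ih fun l => k (c :: l)) l1

noncomputable def leaf (tl : List (List ℤ)) (al be : List ℤ) : ℤ :=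
  mapK (fun r => dotA r be 0) tl fun y => fz (dotA al y 0) fun x => Int.mul x x

noncomputable def SS (tl : List (List ℤ)) (cs : List (List ℤ × List ℤ)) :
    ℕ → List ℤ → List ℤ → ℤ :=
  List.rec (fun k al be => Nat.rec (leaf tl al be) (fun _ _ => 0) k)
    (fun c _ ih k al be => Int.add (zipK Int.mul be c.2 fun be' => ih k al be')
      (Nat.rec 0 (fun k' _ => zipK Int.mul al c.1 fun al' => ih k' al' be) k)) cs

noncomputable def prodA (f : List ℤ → ℤ) (l : List (List ℤ)) : ℤ → ℤ :=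
  List.rec (fun acc => acc) (fun a _ ih acc => fz (Int.mul acc (f a)) ih) l

noncomputable def RR (rows cs : List (List ℤ)) : List ℤ → ℤ :=
  List.rec (fun x => prodA (fun w => dotA w x 0) rows 1)
    (fun w _ ih x => Int.sub (zipK Int.add x w ih) (ih x)) cs

noncomputable def sq (x : ℤ) : ℤ := fz x fun y => Int.mul y y

noncomputable def NN (bl tT : List (List ℤ)) (al0 al : List (List ℤ)) : List (List ℤ) → ℤ :=
  List.rec (fun _ => 0) (fun a _ ih tl => List.rec 0 (fun tr tl' _ => Int.add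
    (mapK (fun a' => sq (sq (dotA a' a 0))) al0 fun g =>
      mapK (fun tc => dotA g tc 0) tT fun X =>
      mapK (fun b => mapK (fun b' => sq (sq (sq (dotA b b' 0)))) bl fun h => dotA h tr 0) bl fun Y =>
        dotA X Y 0) (ih tl')) tl) al

def vr0 : List ℤ :=
  [.negSucc 7, .negSucc 0, .ofNat 9]
def vr1 : List ℤ :=
  [.ofNat 0, .ofNat 3, .negSucc 11]
def vr2 : List ℤ :=
  [.ofNat 11, .negSucc 2, .negSucc 1]
def vr3 : List ℤ :=
  [.ofNat 0, .negSucc 6, .negSucc 9]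
def vr4 : List ℤ :=
  [.negSucc 7, .ofNat 2, .negSucc 7]
def vr5 : List ℤ :=
  [.negSucc 7, .negSucc 6, .ofNat 6]
def vr6 : List ℤ :=
  [.negSucc 3, .ofNat 10, .ofNat 6]
def vr7 : List ℤ :=
  [.ofNat 1, .ofNat 12, .ofNat 2]
def vr8 : List ℤ :=
  [.ofNat 0, .negSucc 8, .ofNat 8]
def vr9 : List ℤ :=
  [.negSucc 4, .negSucc 8, .negSucc 5]
def vr10 : List ℤ :=
  [.negSucc 7, .ofNat 7, .negSucc 4]
def vr11 : List ℤ :=
  [.ofNat 12, .ofNat 2, .ofNat 1]

def vL : List (List ℤ) :=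
  [vr0, vr1, vr2, vr3, vr4, vr5, vr6, vr7, vr8, vr9, vr10, vr11]

def ar0 : List ℤ :=
  [.ofNat 0, .ofNat 0, .ofNat 1]
def ar1 : List ℤ :=
  [.ofNat 0, .ofNat 1, .ofNat 0]
def ar2 : List ℤ :=
  [.ofNat 1, .ofNat 0, .ofNat 0]
def ar3 : List ℤ :=
  [.ofNat 0, .ofNat 1, .negSucc 0]
def ar4 : List ℤ :=
  [.ofNat 0, .ofNat 1, .ofNat 1]
def ar5 : List ℤ :=
  [.ofNat 1, .negSucc 0, .ofNat 0]
def ar6 : List ℤ :=
  [.ofNat 1, .ofNat 0, .negSucc 0]
def ar7 : List ℤ :=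
  [.ofNat 1, .ofNat 0, .ofNat 1]
def ar8 : List ℤ :=
  [.ofNat 1, .ofNat 1, .ofNat 0]
def ar9 : List ℤ :=
  [.ofNat 1, .negSucc 0, .negSucc 0]
def ar10 : List ℤ :=
  [.ofNat 1, .negSucc 0, .ofNat 1]
def ar11 : List ℤ :=
  [.ofNat 1, .ofNat 1, .negSucc 0]
def ar12 : List ℤ :=
  [.ofNat 0, .ofNat 1, .negSucc 1]
def ar13 : List ℤ :=
  [.ofNat 1, .negSucc 1, .ofNat 0]
def ar14 : List ℤ :=
  [.ofNat 1, .ofNat 0, .negSucc 1]

def aL : List (List ℤ) :=
  [ar0, ar1, ar2, ar3, ar4, ar5, ar6, ar7, ar8, ar9, ar10, ar11, ar12, ar13, ar14]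

def br0 : List ℤ :=
  [.ofNat 0, .ofNat 0, .ofNat 1]
def br1 : List ℤ :=
  [.ofNat 0, .ofNat 1, .ofNat 0]
def br2 : List ℤ :=
  [.ofNat 1, .ofNat 0, .ofNat 0]
def br3 : List ℤ :=
  [.ofNat 0, .ofNat 1, .negSucc 0]
def br4 : List ℤ :=
  [.ofNat 0, .ofNat 1, .ofNat 1]
def br5 : List ℤ :=
  [.ofNat 1, .negSucc 0, .ofNat 0]
def br6 : List ℤ :=
  [.ofNat 1, .ofNat 0, .negSucc 0]
def br7 : List ℤ :=
  [.ofNat 1, .ofNat 0, .ofNat 1]
def br8 : List ℤ :=
  [.ofNat 1, .ofNat 1, .ofNat 0]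
def br9 : List ℤ :=
  [.ofNat 1, .negSucc 0, .negSucc 0]
def br10 : List ℤ :=
  [.ofNat 1, .negSucc 0, .ofNat 1]
def br11 : List ℤ :=
  [.ofNat 1, .ofNat 1, .negSucc 0]
def br12 : List ℤ :=
  [.ofNat 1, .ofNat 1, .ofNat 1]
def br13 : List ℤ :=
  [.ofNat 0, .ofNat 1, .negSucc 1]
def br14 : List ℤ :=
  [.ofNat 0, .ofNat 1, .ofNat 2]
def br15 : List ℤ :=
  [.ofNat 0, .ofNat 2, .negSucc 0]
def br16 : List ℤ :=
  [.ofNat 0, .ofNat 2, .ofNat 1]
def br17 : List ℤ :=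
  [.ofNat 1, .negSucc 1, .ofNat 0]
def br18 : List ℤ :=
  [.ofNat 1, .ofNat 0, .negSucc 1]
def br19 : List ℤ :=
  [.ofNat 1, .ofNat 0, .ofNat 2]
def br20 : List ℤ :=
  [.ofNat 1, .ofNat 2, .ofNat 0]
def br21 : List ℤ :=
  [.ofNat 2, .negSucc 0, .ofNat 0]
def br22 : List ℤ :=
  [.ofNat 2, .ofNat 0, .negSucc 0]
def br23 : List ℤ :=
  [.ofNat 2, .ofNat 0, .ofNat 1]
def br24 : List ℤ :=
  [.ofNat 2, .ofNat 1, .ofNat 0]
def br25 : List ℤ :=
  [.ofNat 1, .negSucc 1, .negSucc 0]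
def br26 : List ℤ :=
  [.ofNat 1, .negSucc 1, .ofNat 1]
def br27 : List ℤ :=
  [.ofNat 1, .negSucc 0, .negSucc 1]
def br28 : List ℤ :=
  [.ofNat 1, .negSucc 0, .ofNat 2]
def br29 : List ℤ :=
  [.ofNat 1, .ofNat 1, .negSucc 1]
def br30 : List ℤ :=
  [.ofNat 1, .ofNat 1, .ofNat 2]
def br31 : List ℤ :=
  [.ofNat 1, .ofNat 2, .negSucc 0]
def br32 : List ℤ :=
  [.ofNat 1, .ofNat 2, .ofNat 1]
def br33 : List ℤ :=
  [.ofNat 2, .negSucc 0, .negSucc 0]
def br34 : List ℤ :=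
  [.ofNat 2, .negSucc 0, .ofNat 1]
def br35 : List ℤ :=
  [.ofNat 2, .ofNat 1, .negSucc 0]
def br36 : List ℤ :=
  [.ofNat 1, .negSucc 1, .negSucc 1]
def br37 : List ℤ :=
  [.ofNat 1, .negSucc 1, .ofNat 2]
def br38 : List ℤ :=
  [.ofNat 1, .ofNat 2, .negSucc 1]
def br39 : List ℤ :=
  [.ofNat 2, .negSucc 1, .negSucc 0]
def br40 : List ℤ :=
  [.ofNat 2, .negSucc 1, .ofNat 1]
def br41 : List ℤ :=
  [.ofNat 2, .negSucc 0, .negSucc 1]
def br42 : List ℤ :=
  [.ofNat 0, .ofNat 1, .negSucc 2]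
def br43 : List ℤ :=
  [.ofNat 1, .negSucc 2, .ofNat 0]
def br44 : List ℤ :=
  [.ofNat 1, .ofNat 0, .negSucc 2]

def bL : List (List ℤ) :=
  [br0, br1, br2, br3, br4, br5, br6, br7, br8, br9, br10, br11, br12, br13, br14, br15, br16,
    br17, br18, br19, br20, br21, br22, br23, br24, br25, br26, br27, br28, br29, br30, br31,
    br32, br33, br34, br35, br36, br37, br38, br39, br40, br41, br42, br43, br44]

def tr0 : List ℤ :=
  [.negSucc 2274627, .negSucc 4059402, .ofNat 4015233, .negSucc 822550, .ofNat 469830,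
    .ofNat 1703952, .ofNat 1084057, .ofNat 106409, .negSucc 276848, .ofNat 511134,
    .ofNat 162062, .ofNat 42430, .ofNat 53972, .ofNat 24931, .ofNat 1756, .ofNat 3521,
    .negSucc 156, .negSucc 17283, .ofNat 14004, .ofNat 8596, .ofNat 11408, .negSucc 15158,
    .negSucc 16291, .negSucc 8596, .ofNat 3905, .ofNat 9645, .ofNat 4604, .ofNat 8469,
    .negSucc 11329, .negSucc 13596, .negSucc 4296, .negSucc 5116, .negSucc 3528, .ofNat 17766,
    .ofNat 5390, .negSucc 572, .negSucc 4104, .ofNat 396, .ofNat 2060, .negSucc 5955,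
    .negSucc 3503, .negSucc 6024, .negSucc 18, .ofNat 634, .negSucc 692]
def tr1 : List ℤ :=
  [.negSucc 9999999, .ofNat 607508, .negSucc 3034023, .ofNat 404333, .negSucc 304543,
    .negSucc 1134902, .negSucc 284439, .negSucc 370673, .ofNat 73430, .negSucc 222217,
    .negSucc 153680, .negSucc 15990, .negSucc 16971, .negSucc 13608, .ofNat 1530,
    .negSucc 2216, .ofNat 2355, .ofNat 10295, .negSucc 33881, .ofNat 5691, .negSucc 3616,
    .ofNat 5318, .ofNat 7776, .ofNat 7870, .negSucc 973, .negSucc 6685, .negSucc 2831,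
    .negSucc 5421, .ofNat 7350, .ofNat 5852, .ofNat 1652, .ofNat 2413, .ofNat 1088,
    .negSucc 6389, .negSucc 1515, .ofNat 18, .ofNat 2148, .ofNat 24, .negSucc 931,
    .ofNat 3201, .ofNat 2567, .ofNat 2324, .ofNat 42, .negSucc 187, .ofNat 2678]
def tr2 : List ℤ :=
  [.negSucc 857937, .ofNat 691448, .ofNat 841666, .negSucc 360896, .ofNat 122112, .ofNat 342754,
    .ofNat 158580, .negSucc 41347, .ofNat 23436, .ofNat 167862, .ofNat 15942, .negSucc 48577,
    .ofNat 16100, .negSucc 2671, .ofNat 883, .ofNat 1484, .ofNat 292, .ofNat 8522,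
    .ofNat 17924, .ofNat 2660, .ofNat 1756, .negSucc 5312, .negSucc 5559, .negSucc 53,
    .negSucc 1820, .ofNat 2701, .negSucc 1062, .ofNat 3017, .negSucc 2927, .negSucc 4003,
    .negSucc 1100, .negSucc 2206, .negSucc 1190, .ofNat 7790, .ofNat 1493, .ofNat 2509,
    .negSucc 1237, .ofNat 734, .ofNat 1445, .negSucc 2133, .negSucc 618, .negSucc 2149,
    .ofNat 568, .negSucc 497, .negSucc 971]
def tr3 : List ℤ :=
  [.negSucc 1281404, .negSucc 873180, .ofNat 1177131, .negSucc 227918, .ofNat 142514,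
    .ofNat 629207, .ofNat 323588, .ofNat 43092, .negSucc 65278, .ofNat 136752, .ofNat 65615,
    .ofNat 28269, .ofNat 9129, .ofNat 6376, .ofNat 68, .ofNat 1658, .negSucc 789,
    .negSucc 6456, .negSucc 780, .ofNat 2703, .ofNat 2602, .negSucc 3972, .negSucc 3733,
    .negSucc 2870, .ofNat 1523, .ofNat 3218, .ofNat 1071, .ofNat 2299, .negSucc 4051,
    .negSucc 3658, .negSucc 955, .negSucc 1576, .negSucc 646, .ofNat 3840, .ofNat 1526,
    .negSucc 971, .negSucc 1138, .ofNat 168, .ofNat 428, .negSucc 1802, .negSucc 1296,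
    .negSucc 1405, .ofNat 79, .ofNat 202, .ofNat 36]
def tr4 : List ℤ :=
  [.negSucc 156329, .negSucc 197780, .negSucc 1305629, .negSucc 89504, .negSucc 74073,
    .negSucc 197789, .negSucc 175113, .negSucc 26094, .negSucc 1058, .negSucc 87001,
    .negSucc 52152, .negSucc 34420, .negSucc 6175, .negSucc 3641, .negSucc 44, .negSucc 1542,
    .ofNat 123, .negSucc 2668, .negSucc 4838, .negSucc 746, .negSucc 800, .ofNat 3000,
    .ofNat 3720, .ofNat 1132, .ofNat 311, .negSucc 1673, .ofNat 246, .negSucc 1613,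
    .ofNat 1549, .ofNat 2213, .ofNat 519, .ofNat 994, .ofNat 455, .negSucc 4107, .ofNat 271,
    .ofNat 496, .ofNat 667, .ofNat 469, .ofNat 205, .ofNat 1103, .ofNat 317, .ofNat 1151,
    .negSucc 4, .ofNat 195, .ofNat 272]
def tr5 : List ℤ :=
  [.negSucc 2021397, .negSucc 869873, .negSucc 494820, .ofNat 262383, .negSucc 83198,
    .negSucc 135041, .negSucc 32012, .ofNat 4449, .negSucc 37802, .negSucc 70818,
    .negSucc 4160, .ofNat 33350, .negSucc 6546, .negSucc 4419, .ofNat 489, .negSucc 1620,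
    .ofNat 398, .negSucc 5106, .negSucc 13200, .negSucc 380, .ofNat 79, .ofNat 2742,
    .ofNat 2968, .negSucc 81, .ofNat 1456, .negSucc 1801, .ofNat 391, .negSucc 1982,
    .ofNat 1143, .ofNat 1612, .ofNat 514, .ofNat 857, .ofNat 398, .negSucc 4161, .negSucc 576,
    .negSucc 1648, .ofNat 639, .negSucc 320, .negSucc 722, .ofNat 995, .ofNat 218,
    .ofNat 1061, .ofNat 100, .ofNat 358, .ofNat 810]
def tr6 : List ℤ :=
  [.negSucc 783493, .negSucc 623171, .negSucc 683140, .ofNat 293359, .negSucc 41290,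
    .negSucc 95758, .negSucc 109235, .negSucc 14982, .negSucc 33247, .negSucc 76635,
    .ofNat 4193, .ofNat 31593, .negSucc 5083, .negSucc 3441, .negSucc 221, .negSucc 2177,
    .negSucc 174, .negSucc 7085, .negSucc 7722, .negSucc 310, .negSucc 113, .ofNat 2617,
    .ofNat 3772, .ofNat 410, .ofNat 1278, .negSucc 1015, .ofNat 1241, .negSucc 971,
    .ofNat 1175, .ofNat 1923, .ofNat 389, .ofNat 1120, .ofNat 366, .negSucc 4145,
    .negSucc 602, .negSucc 1572, .ofNat 461, .negSucc 492, .negSucc 807, .ofNat 1011,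
    .ofNat 95, .ofNat 1019, .ofNat 36, .ofNat 380, .ofNat 424]
def tr7 : List ℤ :=
  [.ofNat 193663, .negSucc 62565, .negSucc 303593, .ofNat 138859, .negSucc 37137,
    .negSucc 78407, .negSucc 86021, .ofNat 3654, .ofNat 1894, .negSucc 48383, .ofNat 2079,
    .ofNat 12040, .negSucc 5246, .negSucc 1893, .negSucc 211, .negSucc 862, .negSucc 142,
    .negSucc 2581, .negSucc 1153, .negSucc 798, .negSucc 590, .ofNat 1401, .ofNat 1834,
    .ofNat 333, .ofNat 280, .negSucc 771, .ofNat 387, .negSucc 664, .ofNat 680, .ofNat 891,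
    .ofNat 380, .ofNat 500, .ofNat 352, .negSucc 2063, .negSucc 510, .negSucc 568, .ofNat 355,
    .negSucc 244, .negSucc 350, .ofNat 595, .ofNat 117, .ofNat 558, .ofNat 25, .ofNat 141,
    .ofNat 44]
def tr8 : List ℤ :=
  [.negSucc 445869, .ofNat 18896, .negSucc 76671, .ofNat 96032, .negSucc 23727, .negSucc 25105,
    .negSucc 5471, .ofNat 13061, .negSucc 6822, .negSucc 23730, .negSucc 852, .ofNat 10116,
    .negSucc 2506, .negSucc 1890, .ofNat 153, .negSucc 429, .negSucc 93, .negSucc 358,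
    .negSucc 5535, .negSucc 364, .negSucc 331, .ofNat 904, .ofNat 721, .negSucc 213,
    .ofNat 438, .negSucc 344, .negSucc 99, .negSucc 757, .ofNat 342, .ofNat 889, .ofNat 142,
    .ofNat 424, .ofNat 211, .negSucc 1358, .negSucc 202, .negSucc 520, .ofNat 203,
    .negSucc 70, .negSucc 296, .ofNat 220, .ofNat 54, .ofNat 442, .ofNat 33, .ofNat 30,
    .ofNat 299]
def tr9 : List ℤ :=
  [.ofNat 828721, .ofNat 402194, .ofNat 327068, .negSucc 81244, .ofNat 10599, .negSucc 60663,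
    .ofNat 32514, .ofNat 27624, .ofNat 27344, .ofNat 6021, .negSucc 12918, .negSucc 15244,
    .negSucc 1616, .ofNat 343, .negSucc 557, .ofNat 656, .negSucc 29, .ofNat 3151,
    .ofNat 2864, .negSucc 983, .negSucc 353, .negSucc 710, .negSucc 1550, .negSucc 253,
    .negSucc 687, .ofNat 119, .negSucc 553, .ofNat 619, .ofNat 157, .negSucc 338, .ofNat 185,
    .negSucc 293, .negSucc 12, .ofNat 1342, .ofNat 42, .ofNat 705, .negSucc 58, .ofNat 155,
    .ofNat 266, .negSucc 94, .ofNat 183, .negSucc 281, .negSucc 11, .negSucc 163, .negSucc 201]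
def tr10 : List ℤ :=
  [.negSucc 51319, .ofNat 255321, .ofNat 212872, .negSucc 95834, .ofNat 9805, .ofNat 25584,
    .ofNat 43393, .ofNat 943, .ofNat 7180, .ofNat 23872, .negSucc 3143, .negSucc 8187,
    .ofNat 2633, .ofNat 1468, .ofNat 320, .ofNat 621, .ofNat 69, .ofNat 2183, .ofNat 1316,
    .ofNat 401, .negSucc 9, .negSucc 821, .negSucc 1134, .negSucc 217, .negSucc 288,
    .ofNat 306, .negSucc 288, .ofNat 141, .negSucc 381, .negSucc 621, .negSucc 229,
    .negSucc 313, .negSucc 121, .ofNat 1201, .ofNat 290, .ofNat 397, .negSucc 136, .ofNat 161,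
    .ofNat 238, .negSucc 292, .negSucc 32, .negSucc 299, .negSucc 30, .negSucc 125,
    .negSucc 49]
def tr11 : List ℤ :=
  [.ofNat 510427, .ofNat 88218, .ofNat 156031, .negSucc 59411, .ofNat 14170, .ofNat 742,
    .ofNat 13238, .ofNat 5937, .ofNat 8111, .ofNat 13443, .negSucc 4290, .negSucc 9097,
    .ofNat 1423, .ofNat 1090, .negSucc 53, .ofNat 219, .negSucc 19, .ofNat 579, .ofNat 2853,
    .negSucc 189, .ofNat 47, .negSucc 606, .negSucc 807, .negSucc 44, .negSucc 387,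
    .ofNat 234, .negSucc 30, .ofNat 344, .negSucc 39, .negSucc 410, .negSucc 98, .negSucc 192,
    .negSucc 93, .ofNat 920, .ofNat 103, .ofNat 440, .negSucc 111, .ofNat 66, .ofNat 188,
    .negSucc 135, .ofNat 30, .negSucc 244, .negSucc 40, .negSucc 38, .negSucc 165]
def tr12 : List ℤ :=
  [.ofNat 276204, .ofNat 129868, .negSucc 313510, .ofNat 82859, .negSucc 34485, .negSucc 141616,
    .negSucc 79159, .negSucc 6530, .ofNat 10943, .negSucc 39814, .negSucc 12885,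
    .negSucc 2662, .negSucc 3790, .negSucc 1938, .negSucc 224, .negSucc 555, .ofNat 63,
    .ofNat 699, .negSucc 802, .negSucc 786, .negSucc 611, .ofNat 1156, .ofNat 1149,
    .ofNat 623, .negSucc 168, .negSucc 769, .negSucc 155, .negSucc 529, .ofNat 988,
    .ofNat 1040, .ofNat 343, .ofNat 463, .ofNat 232, .negSucc 1265, .negSucc 418, .ofNat 35,
    .ofNat 307, .negSucc 84, .negSucc 184, .ofNat 488, .ofNat 284, .ofNat 426, .negSucc 3,
    .negSucc 4, .ofNat 33]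
def tr13 : List ℤ :=
  [.ofNat 553554, .ofNat 75333, .negSucc 58009, .ofNat 3076, .ofNat 6390, .ofNat 4487,
    .negSucc 30561, .negSucc 1292, .ofNat 2198, .ofNat 541, .ofNat 3427, .negSucc 2205,
    .ofNat 503, .ofNat 161, .negSucc 99, .negSucc 69, .negSucc 76, .ofNat 117, .ofNat 2689,
    .negSucc 154, .negSucc 45, .ofNat 45, .ofNat 143, .ofNat 175, .negSucc 123, .ofNat 123,
    .ofNat 92, .ofNat 161, .negSucc 28, .ofNat 8, .negSucc 37, .ofNat 25, .negSucc 12,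
    .ofNat 93, .negSucc 81, .ofNat 126, .negSucc 29, .negSucc 34, .ofNat 10, .negSucc 22,
    .negSucc 24, .negSucc 22, .negSucc 7, .negSucc 15, .negSucc 175]
def tr14 : List ℤ :=
  [.negSucc 137772, .ofNat 122469, .ofNat 76534, .negSucc 42701, .ofNat 7879, .ofNat 42017,
    .ofNat 19542, .negSucc 3058, .ofNat 4045, .ofNat 15138, .ofNat 2575, .negSucc 2268,
    .ofNat 1060, .ofNat 530, .ofNat 190, .ofNat 378, .negSucc 31, .ofNat 867, .ofNat 423,
    .ofNat 350, .negSucc 20, .negSucc 387, .negSucc 413, .negSucc 44, .negSucc 105,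
    .ofNat 270, .negSucc 172, .ofNat 61, .negSucc 319, .negSucc 293, .negSucc 124,
    .negSucc 164, .negSucc 43, .ofNat 527, .ofNat 116, .ofNat 119, .negSucc 92, .ofNat 76,
    .ofNat 96, .negSucc 211, .negSucc 71, .negSucc 136, .ofNat 4, .negSucc 56, .negSucc 11]

def tL : List (List ℤ) :=
  [tr0, tr1, tr2, tr3, tr4, tr5, tr6, tr7, tr8, tr9, tr10, tr11, tr12, tr13, tr14]

def ur0 : List ℤ :=
  [.negSucc 2274627, .negSucc 9999999, .negSucc 857937, .negSucc 1281404, .negSucc 156329,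
    .negSucc 2021397, .negSucc 783493, .ofNat 193663, .negSucc 445869, .ofNat 828721,
    .negSucc 51319, .ofNat 510427, .ofNat 276204, .ofNat 553554, .negSucc 137772]
def ur1 : List ℤ :=
  [.negSucc 4059402, .ofNat 607508, .ofNat 691448, .negSucc 873180, .negSucc 197780,
    .negSucc 869873, .negSucc 623171, .negSucc 62565, .ofNat 18896, .ofNat 402194,
    .ofNat 255321, .ofNat 88218, .ofNat 129868, .ofNat 75333, .ofNat 122469]
def ur2 : List ℤ :=
  [.ofNat 4015233, .negSucc 3034023, .ofNat 841666, .ofNat 1177131, .negSucc 1305629,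
    .negSucc 494820, .negSucc 683140, .negSucc 303593, .negSucc 76671, .ofNat 327068,
    .ofNat 212872, .ofNat 156031, .negSucc 313510, .negSucc 58009, .ofNat 76534]
def ur3 : List ℤ :=
  [.negSucc 822550, .ofNat 404333, .negSucc 360896, .negSucc 227918, .negSucc 89504,
    .ofNat 262383, .ofNat 293359, .ofNat 138859, .ofNat 96032, .negSucc 81244, .negSucc 95834,
    .negSucc 59411, .ofNat 82859, .ofNat 3076, .negSucc 42701]
def ur4 : List ℤ :=
  [.ofNat 469830, .negSucc 304543, .ofNat 122112, .ofNat 142514, .negSucc 74073, .negSucc 83198,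
    .negSucc 41290, .negSucc 37137, .negSucc 23727, .ofNat 10599, .ofNat 9805, .ofNat 14170,
    .negSucc 34485, .ofNat 6390, .ofNat 7879]
def ur5 : List ℤ :=
  [.ofNat 1703952, .negSucc 1134902, .ofNat 342754, .ofNat 629207, .negSucc 197789,
    .negSucc 135041, .negSucc 95758, .negSucc 78407, .negSucc 25105, .negSucc 60663,
    .ofNat 25584, .ofNat 742, .negSucc 141616, .ofNat 4487, .ofNat 42017]
def ur6 : List ℤ :=
  [.ofNat 1084057, .negSucc 284439, .ofNat 158580, .ofNat 323588, .negSucc 175113,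
    .negSucc 32012, .negSucc 109235, .negSucc 86021, .negSucc 5471, .ofNat 32514,
    .ofNat 43393, .ofNat 13238, .negSucc 79159, .negSucc 30561, .ofNat 19542]
def ur7 : List ℤ :=
  [.ofNat 106409, .negSucc 370673, .negSucc 41347, .ofNat 43092, .negSucc 26094, .ofNat 4449,
    .negSucc 14982, .ofNat 3654, .ofNat 13061, .ofNat 27624, .ofNat 943, .ofNat 5937,
    .negSucc 6530, .negSucc 1292, .negSucc 3058]
def ur8 : List ℤ :=
  [.negSucc 276848, .ofNat 73430, .ofNat 23436, .negSucc 65278, .negSucc 1058, .negSucc 37802,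
    .negSucc 33247, .ofNat 1894, .negSucc 6822, .ofNat 27344, .ofNat 7180, .ofNat 8111,
    .ofNat 10943, .ofNat 2198, .ofNat 4045]
def ur9 : List ℤ :=
  [.ofNat 511134, .negSucc 222217, .ofNat 167862, .ofNat 136752, .negSucc 87001, .negSucc 70818,
    .negSucc 76635, .negSucc 48383, .negSucc 23730, .ofNat 6021, .ofNat 23872, .ofNat 13443,
    .negSucc 39814, .ofNat 541, .ofNat 15138]
def ur10 : List ℤ :=
  [.ofNat 162062, .negSucc 153680, .ofNat 15942, .ofNat 65615, .negSucc 52152, .negSucc 4160,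
    .ofNat 4193, .ofNat 2079, .negSucc 852, .negSucc 12918, .negSucc 3143, .negSucc 4290,
    .negSucc 12885, .ofNat 3427, .ofNat 2575]
def ur11 : List ℤ :=
  [.ofNat 42430, .negSucc 15990, .negSucc 48577, .ofNat 28269, .negSucc 34420, .ofNat 33350,
    .ofNat 31593, .ofNat 12040, .ofNat 10116, .negSucc 15244, .negSucc 8187, .negSucc 9097,
    .negSucc 2662, .negSucc 2205, .negSucc 2268]
def ur12 : List ℤ :=
  [.ofNat 53972, .negSucc 16971, .ofNat 16100, .ofNat 9129, .negSucc 6175, .negSucc 6546,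
    .negSucc 5083, .negSucc 5246, .negSucc 2506, .negSucc 1616, .ofNat 2633, .ofNat 1423,
    .negSucc 3790, .ofNat 503, .ofNat 1060]
def ur13 : List ℤ :=
  [.ofNat 24931, .negSucc 13608, .negSucc 2671, .ofNat 6376, .negSucc 3641, .negSucc 4419,
    .negSucc 3441, .negSucc 1893, .negSucc 1890, .ofNat 343, .ofNat 1468, .ofNat 1090,
    .negSucc 1938, .ofNat 161, .ofNat 530]
def ur14 : List ℤ :=
  [.ofNat 1756, .ofNat 1530, .ofNat 883, .ofNat 68, .negSucc 44, .ofNat 489, .negSucc 221,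
    .negSucc 211, .ofNat 153, .negSucc 557, .ofNat 320, .negSucc 53, .negSucc 224,
    .negSucc 99, .ofNat 190]
def ur15 : List ℤ :=
  [.ofNat 3521, .negSucc 2216, .ofNat 1484, .ofNat 1658, .negSucc 1542, .negSucc 1620,
    .negSucc 2177, .negSucc 862, .negSucc 429, .ofNat 656, .ofNat 621, .ofNat 219,
    .negSucc 555, .negSucc 69, .ofNat 378]
def ur16 : List ℤ :=
  [.negSucc 156, .ofNat 2355, .ofNat 292, .negSucc 789, .ofNat 123, .ofNat 398, .negSucc 174,
    .negSucc 142, .negSucc 93, .negSucc 29, .ofNat 69, .negSucc 19, .ofNat 63, .negSucc 76,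
    .negSucc 31]
def ur17 : List ℤ :=
  [.negSucc 17283, .ofNat 10295, .ofNat 8522, .negSucc 6456, .negSucc 2668, .negSucc 5106,
    .negSucc 7085, .negSucc 2581, .negSucc 358, .ofNat 3151, .ofNat 2183, .ofNat 579,
    .ofNat 699, .ofNat 117, .ofNat 867]
def ur18 : List ℤ :=
  [.ofNat 14004, .negSucc 33881, .ofNat 17924, .negSucc 780, .negSucc 4838, .negSucc 13200,
    .negSucc 7722, .negSucc 1153, .negSucc 5535, .ofNat 2864, .ofNat 1316, .ofNat 2853,
    .negSucc 802, .ofNat 2689, .ofNat 423]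
def ur19 : List ℤ :=
  [.ofNat 8596, .ofNat 5691, .ofNat 2660, .ofNat 2703, .negSucc 746, .negSucc 380, .negSucc 310,
    .negSucc 798, .negSucc 364, .negSucc 983, .ofNat 401, .negSucc 189, .negSucc 786,
    .negSucc 154, .ofNat 350]
def ur20 : List ℤ :=
  [.ofNat 11408, .negSucc 3616, .ofNat 1756, .ofNat 2602, .negSucc 800, .ofNat 79, .negSucc 113,
    .negSucc 590, .negSucc 331, .negSucc 353, .negSucc 9, .ofNat 47, .negSucc 611,
    .negSucc 45, .negSucc 20]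
def ur21 : List ℤ :=
  [.negSucc 15158, .ofNat 5318, .negSucc 5312, .negSucc 3972, .ofNat 3000, .ofNat 2742,
    .ofNat 2617, .ofNat 1401, .ofNat 904, .negSucc 710, .negSucc 821, .negSucc 606,
    .ofNat 1156, .ofNat 45, .negSucc 387]
def ur22 : List ℤ :=
  [.negSucc 16291, .ofNat 7776, .negSucc 5559, .negSucc 3733, .ofNat 3720, .ofNat 2968,
    .ofNat 3772, .ofNat 1834, .ofNat 721, .negSucc 1550, .negSucc 1134, .negSucc 807,
    .ofNat 1149, .ofNat 143, .negSucc 413]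
def ur23 : List ℤ :=
  [.negSucc 8596, .ofNat 7870, .negSucc 53, .negSucc 2870, .ofNat 1132, .negSucc 81, .ofNat 410,
    .ofNat 333, .negSucc 213, .negSucc 253, .negSucc 217, .negSucc 44, .ofNat 623, .ofNat 175,
    .negSucc 44]
def ur24 : List ℤ :=
  [.ofNat 3905, .negSucc 973, .negSucc 1820, .ofNat 1523, .ofNat 311, .ofNat 1456, .ofNat 1278,
    .ofNat 280, .ofNat 438, .negSucc 687, .negSucc 288, .negSucc 387, .negSucc 168,
    .negSucc 123, .negSucc 105]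
def ur25 : List ℤ :=
  [.ofNat 9645, .negSucc 6685, .ofNat 2701, .ofNat 3218, .negSucc 1673, .negSucc 1801,
    .negSucc 1015, .negSucc 771, .negSucc 344, .ofNat 119, .ofNat 306, .ofNat 234,
    .negSucc 769, .ofNat 123, .ofNat 270]
def ur26 : List ℤ :=
  [.ofNat 4604, .negSucc 2831, .negSucc 1062, .ofNat 1071, .ofNat 246, .ofNat 391, .ofNat 1241,
    .ofNat 387, .negSucc 99, .negSucc 553, .negSucc 288, .negSucc 30, .negSucc 155, .ofNat 92,
    .negSucc 172]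
def ur27 : List ℤ :=
  [.ofNat 8469, .negSucc 5421, .ofNat 3017, .ofNat 2299, .negSucc 1613, .negSucc 1982,
    .negSucc 971, .negSucc 664, .negSucc 757, .ofNat 619, .ofNat 141, .ofNat 344,
    .negSucc 529, .ofNat 161, .ofNat 61]
def ur28 : List ℤ :=
  [.negSucc 11329, .ofNat 7350, .negSucc 2927, .negSucc 4051, .ofNat 1549, .ofNat 1143,
    .ofNat 1175, .ofNat 680, .ofNat 342, .ofNat 157, .negSucc 381, .negSucc 39, .ofNat 988,
    .negSucc 28, .negSucc 319]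
def ur29 : List ℤ :=
  [.negSucc 13596, .ofNat 5852, .negSucc 4003, .negSucc 3658, .ofNat 2213, .ofNat 1612,
    .ofNat 1923, .ofNat 891, .ofNat 889, .negSucc 338, .negSucc 621, .negSucc 410,
    .ofNat 1040, .ofNat 8, .negSucc 293]
def ur30 : List ℤ :=
  [.negSucc 4296, .ofNat 1652, .negSucc 1100, .negSucc 955, .ofNat 519, .ofNat 514, .ofNat 389,
    .ofNat 380, .ofNat 142, .ofNat 185, .negSucc 229, .negSucc 98, .ofNat 343, .negSucc 37,
    .negSucc 124]
def ur31 : List ℤ :=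
  [.negSucc 5116, .ofNat 2413, .negSucc 2206, .negSucc 1576, .ofNat 994, .ofNat 857,
    .ofNat 1120, .ofNat 500, .ofNat 424, .negSucc 293, .negSucc 313, .negSucc 192, .ofNat 463,
    .ofNat 25, .negSucc 164]
def ur32 : List ℤ :=
  [.negSucc 3528, .ofNat 1088, .negSucc 1190, .negSucc 646, .ofNat 455, .ofNat 398, .ofNat 366,
    .ofNat 352, .ofNat 211, .negSucc 12, .negSucc 121, .negSucc 93, .ofNat 232, .negSucc 12,
    .negSucc 43]
def ur33 : List ℤ :=
  [.ofNat 17766, .negSucc 6389, .ofNat 7790, .ofNat 3840, .negSucc 4107, .negSucc 4161,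
    .negSucc 4145, .negSucc 2063, .negSucc 1358, .ofNat 1342, .ofNat 1201, .ofNat 920,
    .negSucc 1265, .ofNat 93, .ofNat 527]
def ur34 : List ℤ :=
  [.ofNat 5390, .negSucc 1515, .ofNat 1493, .ofNat 1526, .ofNat 271, .negSucc 576, .negSucc 602,
    .negSucc 510, .negSucc 202, .ofNat 42, .ofNat 290, .ofNat 103, .negSucc 418, .negSucc 81,
    .ofNat 116]
def ur35 : List ℤ :=
  [.negSucc 572, .ofNat 18, .ofNat 2509, .negSucc 971, .ofNat 496, .negSucc 1648, .negSucc 1572,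
    .negSucc 568, .negSucc 520, .ofNat 705, .ofNat 397, .ofNat 440, .ofNat 35, .ofNat 126,
    .ofNat 119]
def ur36 : List ℤ :=
  [.negSucc 4104, .ofNat 2148, .negSucc 1237, .negSucc 1138, .ofNat 667, .ofNat 639, .ofNat 461,
    .ofNat 355, .ofNat 203, .negSucc 58, .negSucc 136, .negSucc 111, .ofNat 307, .negSucc 29,
    .negSucc 92]
def ur37 : List ℤ :=
  [.ofNat 396, .ofNat 24, .ofNat 734, .ofNat 168, .ofNat 469, .negSucc 320, .negSucc 492,
    .negSucc 244, .negSucc 70, .ofNat 155, .ofNat 161, .ofNat 66, .negSucc 84, .negSucc 34,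
    .ofNat 76]
def ur38 : List ℤ :=
  [.ofNat 2060, .negSucc 931, .ofNat 1445, .ofNat 428, .ofNat 205, .negSucc 722, .negSucc 807,
    .negSucc 350, .negSucc 296, .ofNat 266, .ofNat 238, .ofNat 188, .negSucc 184, .ofNat 10,
    .ofNat 96]
def ur39 : List ℤ :=
  [.negSucc 5955, .ofNat 3201, .negSucc 2133, .negSucc 1802, .ofNat 1103, .ofNat 995,
    .ofNat 1011, .ofNat 595, .ofNat 220, .negSucc 94, .negSucc 292, .negSucc 135, .ofNat 488,
    .negSucc 22, .negSucc 211]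
def ur40 : List ℤ :=
  [.negSucc 3503, .ofNat 2567, .negSucc 618, .negSucc 1296, .ofNat 317, .ofNat 218, .ofNat 95,
    .ofNat 117, .ofNat 54, .ofNat 183, .negSucc 32, .ofNat 30, .ofNat 284, .negSucc 24,
    .negSucc 71]
def ur41 : List ℤ :=
  [.negSucc 6024, .ofNat 2324, .negSucc 2149, .negSucc 1405, .ofNat 1151, .ofNat 1061,
    .ofNat 1019, .ofNat 558, .ofNat 442, .negSucc 281, .negSucc 299, .negSucc 244, .ofNat 426,
    .negSucc 22, .negSucc 136]
def ur42 : List ℤ :=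
  [.negSucc 18, .ofNat 42, .ofNat 568, .ofNat 79, .negSucc 4, .ofNat 100, .ofNat 36, .ofNat 25,
    .ofNat 33, .negSucc 11, .negSucc 30, .negSucc 40, .negSucc 3, .negSucc 7, .ofNat 4]
def ur43 : List ℤ :=
  [.ofNat 634, .negSucc 187, .negSucc 497, .ofNat 202, .ofNat 195, .ofNat 358, .ofNat 380,
    .ofNat 141, .ofNat 30, .negSucc 163, .negSucc 125, .negSucc 38, .negSucc 4, .negSucc 15,
    .negSucc 56]
def ur44 : List ℤ :=
  [.negSucc 692, .ofNat 2678, .negSucc 971, .ofNat 36, .ofNat 272, .ofNat 810, .ofNat 424,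
    .ofNat 44, .ofNat 299, .negSucc 201, .negSucc 49, .negSucc 165, .ofNat 33, .negSucc 175,
    .negSucc 11]

def tT : List (List ℤ) :=
  [ur0, ur1, ur2, ur3, ur4, ur5, ur6, ur7, ur8, ur9, ur10, ur11, ur12, ur13, ur14, ur15, ur16,
    ur17, ur18, ur19, ur20, ur21, ur22, ur23, ur24, ur25, ur26, ur27, ur28, ur29, ur30, ur31,
    ur32, ur33, ur34, ur35, ur36, ur37, ur38, ur39, ur40, ur41, ur42, ur43, ur44]

def ca0 : List ℤ :=
  [.ofNat 9, .negSucc 0, .negSucc 7, .negSucc 9, .ofNat 8, .negSucc 6, .negSucc 16, .ofNat 1,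
    .negSucc 8, .negSucc 15, .ofNat 2, .negSucc 17, .negSucc 18, .negSucc 5, .negSucc 25]
def ca1 : List ℤ :=
  [.negSucc 11, .ofNat 3, .ofNat 0, .ofNat 15, .negSucc 8, .negSucc 2, .ofNat 12, .negSucc 11,
    .ofNat 3, .ofNat 9, .negSucc 14, .ofNat 15, .ofNat 27, .negSucc 5, .ofNat 24]
def ca2 : List ℤ :=
  [.negSucc 1, .negSucc 2, .ofNat 11, .negSucc 0, .negSucc 4, .ofNat 14, .ofNat 13, .ofNat 9,
    .ofNat 8, .ofNat 16, .ofNat 12, .ofNat 10, .ofNat 1, .ofNat 17, .ofNat 15]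
def ca3 : List ℤ :=
  [.negSucc 9, .negSucc 6, .ofNat 0, .ofNat 3, .negSucc 16, .ofNat 7, .ofNat 10, .negSucc 9,
    .negSucc 6, .ofNat 17, .negSucc 2, .ofNat 3, .ofNat 13, .ofNat 14, .ofNat 20]
def ca4 : List ℤ :=
  [.negSucc 7, .ofNat 2, .negSucc 7, .ofNat 10, .negSucc 5, .negSucc 9, .ofNat 0, .negSucc 15,
    .negSucc 5, .negSucc 1, .negSucc 17, .ofNat 2, .ofNat 18, .negSucc 11, .ofNat 8]
def ca5 : List ℤ :=
  [.ofNat 6, .negSucc 6, .negSucc 7, .negSucc 12, .negSucc 0, .negSucc 0, .negSucc 13,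
    .negSucc 1, .negSucc 14, .negSucc 6, .ofNat 5, .negSucc 20, .negSucc 18, .ofNat 6,
    .negSucc 19]
def ca6 : List ℤ :=
  [.ofNat 6, .ofNat 10, .negSucc 3, .ofNat 4, .ofNat 16, .negSucc 13, .negSucc 9, .ofNat 2,
    .ofNat 6, .negSucc 19, .negSucc 7, .ofNat 0, .negSucc 1, .negSucc 23, .negSucc 15]
def ca7 : List ℤ :=
  [.ofNat 2, .ofNat 12, .ofNat 1, .ofNat 10, .ofNat 14, .negSucc 10, .negSucc 0, .ofNat 3,
    .ofNat 13, .negSucc 12, .negSucc 8, .ofNat 11, .ofNat 8, .negSucc 22, .negSucc 2]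
def ca8 : List ℤ :=
  [.ofNat 8, .negSucc 8, .ofNat 0, .negSucc 16, .negSucc 0, .ofNat 9, .negSucc 7, .ofNat 8,
    .negSucc 8, .ofNat 1, .ofNat 17, .negSucc 16, .negSucc 24, .ofNat 18, .negSucc 15]
def ca9 : List ℤ :=
  [.negSucc 5, .negSucc 8, .negSucc 4, .negSucc 2, .negSucc 14, .ofNat 4, .ofNat 1, .negSucc 10,
    .negSucc 13, .ofNat 10, .negSucc 1, .negSucc 7, .ofNat 3, .ofNat 13, .ofNat 7]
def ca10 : List ℤ :=
  [.negSucc 4, .ofNat 7, .negSucc 7, .ofNat 12, .ofNat 2, .negSucc 14, .negSucc 2, .negSucc 12,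
    .negSucc 0, .negSucc 9, .negSucc 19, .ofNat 4, .ofNat 17, .negSucc 21, .ofNat 2]
def ca11 : List ℤ :=
  [.ofNat 1, .ofNat 2, .ofNat 12, .ofNat 1, .ofNat 3, .ofNat 10, .ofNat 11, .ofNat 13,
    .ofNat 14, .ofNat 9, .ofNat 11, .ofNat 13, .ofNat 0, .ofNat 8, .ofNat 10]
def cb0 : List ℤ :=
  [.ofNat 9, .negSucc 0, .negSucc 7, .negSucc 9, .ofNat 8, .negSucc 6, .negSucc 16, .ofNat 1,
    .negSucc 8, .negSucc 15, .ofNat 2, .negSucc 17, .ofNat 0, .negSucc 18, .ofNat 17,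
    .negSucc 10, .ofNat 7, .negSucc 5, .negSucc 25, .ofNat 10, .negSucc 9, .negSucc 14,
    .negSucc 24, .negSucc 6, .negSucc 16, .negSucc 14, .ofNat 3, .negSucc 24, .ofNat 11,
    .negSucc 26, .ofNat 9, .negSucc 18, .negSucc 0, .negSucc 23, .negSucc 5, .negSucc 25,
    .negSucc 23, .ofNat 12, .negSucc 27, .negSucc 22, .negSucc 4, .negSucc 32, .negSucc 27,
    .negSucc 4, .negSucc 34]
def cb1 : List ℤ :=
  [.negSucc 11, .ofNat 3, .ofNat 0, .ofNat 15, .negSucc 8, .negSucc 2, .ofNat 12, .negSucc 11,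
    .ofNat 3, .ofNat 9, .negSucc 14, .ofNat 15, .negSucc 8, .ofNat 27, .negSucc 20, .ofNat 18,
    .negSucc 5, .negSucc 5, .ofNat 24, .negSucc 23, .ofNat 6, .negSucc 2, .ofNat 12,
    .negSucc 11, .ofNat 3, .ofNat 6, .negSucc 17, .ofNat 21, .negSucc 26, .ofNat 27,
    .negSucc 20, .ofNat 18, .negSucc 5, .ofNat 9, .negSucc 14, .ofNat 15, .ofNat 18,
    .negSucc 29, .ofNat 30, .ofNat 6, .negSucc 17, .ofNat 21, .ofNat 39, .negSucc 8, .ofNat 36]
def cb2 : List ℤ :=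
  [.negSucc 1, .negSucc 2, .ofNat 11, .negSucc 0, .negSucc 4, .ofNat 14, .ofNat 13, .ofNat 9,
    .ofNat 8, .ofNat 16, .ofNat 12, .ofNat 10, .ofNat 6, .ofNat 1, .negSucc 6, .negSucc 3,
    .negSucc 7, .ofNat 17, .ofNat 15, .ofNat 7, .ofNat 5, .ofNat 25, .ofNat 24, .ofNat 20,
    .ofNat 19, .ofNat 19, .ofNat 15, .ofNat 18, .ofNat 10, .ofNat 12, .ofNat 4, .ofNat 7,
    .ofNat 3, .ofNat 27, .ofNat 23, .ofNat 21, .ofNat 21, .ofNat 13, .ofNat 9, .ofNat 30,
    .ofNat 26, .ofNat 29, .ofNat 3, .ofNat 20, .ofNat 17]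
def cb3 : List ℤ :=
  [.negSucc 9, .negSucc 6, .ofNat 0, .ofNat 3, .negSucc 16, .ofNat 7, .ofNat 10, .negSucc 9,
    .negSucc 6, .ofNat 17, .negSucc 2, .ofNat 3, .negSucc 16, .ofNat 13, .negSucc 26,
    .negSucc 3, .negSucc 23, .ofNat 14, .ofNat 20, .negSucc 19, .negSucc 13, .ofNat 7,
    .ofNat 10, .negSucc 9, .negSucc 6, .ofNat 24, .ofNat 4, .ofNat 27, .negSucc 12, .ofNat 13,
    .negSucc 26, .negSucc 3, .negSucc 23, .ofNat 17, .negSucc 2, .ofNat 3, .ofNat 34,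
    .negSucc 5, .ofNat 6, .ofNat 24, .ofNat 4, .ofNat 27, .ofNat 23, .ofNat 21, .ofNat 30]
def cb4 : List ℤ :=
  [.negSucc 7, .ofNat 2, .negSucc 7, .ofNat 10, .negSucc 5, .negSucc 9, .ofNat 0, .negSucc 15,
    .negSucc 5, .negSucc 1, .negSucc 17, .ofNat 2, .negSucc 13, .ofNat 18, .negSucc 13,
    .ofNat 12, .negSucc 3, .negSucc 11, .ofNat 8, .negSucc 23, .negSucc 3, .negSucc 17,
    .negSucc 7, .negSucc 23, .negSucc 13, .negSucc 3, .negSucc 19, .ofNat 6, .negSucc 25,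
    .ofNat 10, .negSucc 21, .ofNat 4, .negSucc 11, .negSucc 9, .negSucc 25, .negSucc 5,
    .ofNat 4, .negSucc 27, .ofNat 12, .negSucc 11, .negSucc 27, .negSucc 1, .ofNat 26,
    .negSucc 13, .ofNat 16]
def cb5 : List ℤ :=
  [.ofNat 6, .negSucc 6, .negSucc 7, .negSucc 12, .negSucc 0, .negSucc 0, .negSucc 13,
    .negSucc 1, .negSucc 14, .negSucc 6, .ofNat 5, .negSucc 20, .negSucc 8, .negSucc 18,
    .ofNat 5, .negSucc 19, .negSucc 7, .ofNat 6, .negSucc 19, .ofNat 4, .negSucc 21,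
    .negSucc 8, .negSucc 21, .negSucc 9, .negSucc 22, .ofNat 0, .ofNat 12, .negSucc 12,
    .ofNat 11, .negSucc 26, .negSucc 2, .negSucc 27, .negSucc 15, .negSucc 14, .negSucc 2,
    .negSucc 28, .negSucc 5, .ofNat 18, .negSucc 33, .negSucc 7, .ofNat 4, .negSucc 20,
    .negSucc 24, .ofNat 13, .negSucc 25]
def cb6 : List ℤ :=
  [.ofNat 6, .ofNat 10, .negSucc 3, .ofNat 4, .ofNat 16, .negSucc 13, .negSucc 9, .ofNat 2,
    .ofNat 6, .negSucc 19, .negSucc 7, .ofNat 0, .ofNat 12, .negSucc 1, .ofNat 22, .ofNat 14,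
    .ofNat 26, .negSucc 23, .negSucc 15, .ofNat 8, .ofNat 16, .negSucc 17, .negSucc 13,
    .negSucc 1, .ofNat 2, .negSucc 29, .negSucc 17, .negSucc 25, .negSucc 1, .negSucc 5,
    .ofNat 18, .ofNat 10, .ofNat 22, .negSucc 23, .negSucc 11, .negSucc 3, .negSucc 35,
    .negSucc 11, .ofNat 4, .negSucc 33, .negSucc 21, .negSucc 29, .negSucc 7, .negSucc 33,
    .negSucc 21]
def cb7 : List ℤ :=
  [.ofNat 2, .ofNat 12, .ofNat 1, .ofNat 10, .ofNat 14, .negSucc 10, .negSucc 0, .ofNat 3,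
    .ofNat 13, .negSucc 12, .negSucc 8, .ofNat 11, .ofNat 15, .ofNat 8, .ofNat 16, .ofNat 22,
    .ofNat 26, .negSucc 22, .negSucc 2, .ofNat 5, .ofNat 25, .negSucc 9, .ofNat 0, .ofNat 4,
    .ofNat 14, .negSucc 24, .negSucc 20, .negSucc 14, .negSucc 6, .ofNat 9, .ofNat 17,
    .ofNat 23, .ofNat 27, .negSucc 11, .negSucc 7, .ofNat 12, .negSucc 26, .negSucc 18,
    .ofNat 21, .negSucc 23, .negSucc 19, .negSucc 13, .ofNat 6, .negSucc 34, .negSucc 4]
def cb8 : List ℤ :=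
  [.ofNat 8, .negSucc 8, .ofNat 0, .negSucc 16, .negSucc 0, .ofNat 9, .negSucc 7, .ofNat 8,
    .negSucc 8, .ofNat 1, .ofNat 17, .negSucc 16, .negSucc 0, .negSucc 24, .ofNat 7,
    .negSucc 25, .negSucc 9, .ofNat 18, .negSucc 15, .ofNat 16, .negSucc 17, .ofNat 9,
    .negSucc 7, .ofNat 8, .negSucc 8, .ofNat 10, .ofNat 26, .negSucc 6, .ofNat 25,
    .negSucc 24, .ofNat 7, .negSucc 25, .negSucc 9, .ofNat 1, .ofNat 17, .negSucc 16,
    .ofNat 2, .ofNat 34, .negSucc 33, .ofNat 10, .ofNat 26, .negSucc 6, .negSucc 32,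
    .ofNat 27, .negSucc 23]
def cb9 : List ℤ :=
  [.negSucc 5, .negSucc 8, .negSucc 4, .negSucc 2, .negSucc 14, .ofNat 4, .ofNat 1, .negSucc 10,
    .negSucc 13, .ofNat 10, .negSucc 1, .negSucc 7, .negSucc 19, .ofNat 3, .negSucc 20,
    .negSucc 11, .negSucc 23, .ofNat 13, .ofNat 7, .negSucc 16, .negSucc 22, .negSucc 0,
    .negSucc 3, .negSucc 15, .negSucc 18, .ofNat 19, .ofNat 7, .ofNat 16, .negSucc 7,
    .negSucc 1, .negSucc 25, .negSucc 16, .negSucc 28, .ofNat 5, .negSucc 6, .negSucc 12,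
    .ofNat 25, .ofNat 1, .negSucc 10, .ofNat 14, .ofNat 2, .ofNat 11, .ofNat 9, .ofNat 22,
    .ofNat 13]
def cb10 : List ℤ :=
  [.negSucc 4, .ofNat 7, .negSucc 7, .ofNat 12, .ofNat 2, .negSucc 14, .negSucc 2, .negSucc 12,
    .negSucc 0, .negSucc 9, .negSucc 19, .ofNat 4, .negSucc 5, .ofNat 17, .negSucc 2,
    .ofNat 19, .ofNat 9, .negSucc 21, .ofNat 2, .negSucc 17, .ofNat 6, .negSucc 22,
    .negSucc 10, .negSucc 20, .negSucc 8, .negSucc 16, .negSucc 26, .negSucc 4, .negSucc 24,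
    .ofNat 9, .negSucc 10, .ofNat 11, .ofNat 1, .negSucc 17, .negSucc 27, .negSucc 3,
    .negSucc 11, .negSucc 31, .ofNat 16, .negSucc 24, .negSucc 34, .negSucc 12, .ofNat 22,
    .negSucc 28, .ofNat 7]
def cb11 : List ℤ :=
  [.ofNat 1, .ofNat 2, .ofNat 12, .ofNat 1, .ofNat 3, .ofNat 10, .ofNat 11, .ofNat 13,
    .ofNat 14, .ofNat 9, .ofNat 11, .ofNat 13, .ofNat 15, .ofNat 0, .ofNat 4, .ofNat 3,
    .ofNat 5, .ofNat 8, .ofNat 10, .ofNat 14, .ofNat 16, .ofNat 22, .ofNat 23, .ofNat 25,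
    .ofNat 26, .ofNat 7, .ofNat 9, .ofNat 8, .ofNat 12, .ofNat 12, .ofNat 16, .ofNat 15,
    .ofNat 17, .ofNat 21, .ofNat 23, .ofNat 25, .ofNat 6, .ofNat 10, .ofNat 14, .ofNat 19,
    .ofNat 21, .ofNat 20, .negSucc 0, .ofNat 6, .ofNat 9]

def cL : List (List ℤ × List ℤ) :=
  [(ca0, cb0), (ca1, cb1), (ca2, cb2), (ca3, cb3), (ca4, cb4), (ca5, cb5), (ca6, cb6),
    (ca7, cb7), (ca8, cb8), (ca9, cb9), (ca10, cb10), (ca11, cb11)]

end Pool.Agent.H.MP_102303_co
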