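import Pool.Agent.H.MP_102303_co.Spec
import Pool.Agent.H.MP_102303_co.C0
import Pool.Agent.H.MP_102303_co.C1
import Pool.Agent.H.MP_102303_co.C2
import Pool.Agent.H.MP_102303_co.C3

set_option autoImplicit false

namespace Pool.Agent.H.MP_102303_co

open Finset List Matrix

def V (j : Fin 12) (l : Fin 3) : ℤ := (vL.getD j []).getD l 0
def av (p : Fin 15) (l : Fin 3) : ℤ := (aL.getD p []).getD l 0
def bv (q : Fin 45) (l : Fin 3) : ℤ := (bL.getD q []).getD l 0
def tv (p : Fin 15) (q : Fin 45) : ℤ := (tL.getD p []).getD q 0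

theorem vL_eq : vL = ofFn fun j => ofFn (V j) := by decide +kernel
theorem aL_eq : aL = ofFn fun j => ofFn (av j) := by decide +kernel
theorem bL_eq : bL = ofFn fun j => ofFn (bv j) := by decide +kernel
theorem tL_eq : tL = ofFn fun j => ofFn (tv j) := by decide +kernel
theorem tT_eq : tT = ofFn fun q => ofFn fun p => tv p q := by decide +kernel
theorem cL_eq : cL = ofFn fun j => (ofFn fun p => ∑ l, av p l * V j l,
    ofFn fun q => ∑ l, bv q l * V j l) := by decide +kernel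

theorem SS_val : SS tL cL 4 (List.replicate 15 1) (List.replicate 45 1) =
    22514922003195051115016068880519904336 := by
  have e : cL = (ca0, cb0) :: (ca1, cb1) :: cL.tail.tail := rfl
  have e2 : cL.tail = (ca1, cb1) :: cL.tail.tail := rfl
  have h3 := SS_val3
  rw [e2] at h3
  rw [e, SS_cons, SS_cons, SS_val1, SS_val2, h3]
  norm_num

def AZ (i j : Fin 12) : ℤ := ∑ l, V i l * V j l

def s0 (i : Fin 12) : Bool := decide (i.val < 4)

def W (m : Fin 15 × Fin 45) (i : Fin 12) (l : Fin 3) : ℤ := if s0 i then av m.1 l else bv m.2 l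

def T (f : Fin 12 → Fin 3) : ℤ := ∑ m : Fin 15 × Fin 45, tv m.1 m.2 * ∏ i, W m i (f i)

def u (σ : Equiv.Perm (Fin 12)) (f : Fin 12 → Fin 3) : ℤ := ∏ i, V (σ i) (f i)

def x (σ : Equiv.Perm (Fin 12)) : ℤ := ∑ f, T f * u σ f

theorem expand (g h : Fin 12 → Fin 3 → ℤ) :
    ∑ f : Fin 12 → Fin 3, (∏ i, g i (f i)) * ∏ i, h i (f i) = ∏ i, ∑ l, g i l * h i l := by
  rw [Finset.prod_univ_sum, Fintype.piFinset_univ]
  simp only [Finset.prod_mul_distrib]

theorem per_val : ∑ σ : Equiv.Perm (Fin 12), ∏ i, AZ (σ i) i = 246720831121699577532684343296 := by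
  have h := RR_spec V 12 V 0
  rw [← vL_eq, show ofFn (0 : Fin 3 → ℤ) = [0, 0, 0] from rfl, RR_val] at h
  rw [h, ryser]
  refine Finset.sum_congr rfl fun s _ => ?_
  congr 1
  refine Finset.prod_congr rfl fun i _ => ?_
  simp only [Pi.zero_apply, zero_add, Finset.mul_sum]
  rw [Finset.sum_comm]
  refine Finset.sum_congr rfl fun j _ => ?_
  split_ifs <;> simp [AZ, mul_comm]

theorem T_val : ∑ f, T f ^ 2 = 87129962572730 := by
  have h := NN_spec av bv tv 15 av tv
  rw [← aL_eq, ← bL_eq, ← tL_eq, ← tT_eq, NN_val] at h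
  rw [h]
  have e : ∀ m m' : Fin 15 × Fin 45, ∏ i, ∑ l, W m i l * W m' i l =
      (∑ l, av m.1 l * av m'.1 l) ^ 4 * (∑ l, bv m.2 l * bv m'.2 l) ^ 8 := by
    intro m m'
    simp only [Fin.prod_univ_succ, W, s0]
    simp
    ring
  calc ∑ f, T f ^ 2 = ∑ m : Fin 15 × Fin 45, ∑ m' : Fin 15 × Fin 45, tv m.1 m.2 * tv m'.1 m'.2 *
        ∑ f : Fin 12 → Fin 3, (∏ i, W m i (f i)) * ∏ i, W m' i (f i) := by
        simp only [T, pow_two, Finset.sum_mul_sum]
        simp only [Finset.mul_sum]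
        rw [Finset.sum_comm]
        refine Finset.sum_congr rfl fun m _ => ?_
        rw [Finset.sum_comm]
        refine Finset.sum_congr rfl fun m' _ => Finset.sum_congr rfl fun f _ => by ring
    _ = _ := by
        simp only [expand, e, Fintype.sum_prod_type, Finset.sum_mul_sum]
        rw [Finset.sum_comm]
        conv_rhs => rw [Finset.sum_comm]
        refine Finset.sum_congr rfl fun q _ => ?_
        rw [Finset.sum_comm]
        refine Finset.sum_congr rfl fun p' _ => Finset.sum_congr rfl fun p _ =>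
          Finset.sum_congr rfl fun q' _ => by ring

theorem x_val : ∑ σ, x σ ^ 2 = 24 * 40320 * 22514922003195051115016068880519904336 := by
  have h := SS_spec tv 12 (fun j p => ∑ l, av p l * V j l) (fun j q => ∑ l, bv q l * V j l) 4
    (fun _ => 1) (fun _ => 1)
  rw [← tL_eq, ← cL_eq, List.ofFn_const, List.ofFn_const, SS_val] at h
  have h2 := sum_perm (k := 4) s0 (by decide) fun s =>
    (∑ p, (1 * ∏ j, if s j then ∑ l, av p l * V j l else 1) *
      ∑ q, tv p q * (1 * ∏ j, if s j then 1 else ∑ l, bv q l * V j l)) ^ 2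
  rw [← h] at h2
  rw [← Equiv.sum_comp (Equiv.inv (Equiv.Perm (Fin 12)))]
  refine Eq.trans (Finset.sum_congr rfl fun σ _ => ?_) (h2.trans (by norm_num [Nat.factorial]))
  refine congrArg (fun t : ℤ => t ^ 2) ?_
  simp only [x, T, u, Finset.sum_mul, mul_assoc]
  rw [Finset.sum_comm]
  simp only [← Finset.mul_sum, expand, Fintype.sum_prod_type, one_mul]
  refine Finset.sum_congr rfl fun p _ => ?_
  rw [Finset.mul_sum]
  refine Finset.sum_congr rfl fun q _ => ?_
  rw [mul_left_comm, ← Finset.prod_mul_distrib, ← Equiv.prod_comp σ]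
  refine congrArg (fun t : ℤ => tv p q * t) (Finset.prod_congr rfl fun j _ => ?_)
  simp only [W, Function.comp, Equiv.inv_apply, Equiv.Perm.coe_inv, Equiv.symm_apply_apply]
  split_ifs <;> simp

theorem main_int : (∑ σ : Equiv.Perm (Fin 12), ∏ i, AZ (σ i) i) * ∑ σ, x σ ^ 2 <
    ∑ σ, x σ * ∑ τ : Equiv.Perm (Fin 12), (∏ i, AZ (σ i) (τ i)) * x τ := by
  have h1 := Finset.sum_mul_sq_le_sq_mul_sq univ T fun f => ∑ σ, x σ * u σ f
  have h2 : ∑ f, T f * ∑ σ, x σ * u σ f = ∑ σ, x σ ^ 2 := by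
    simp only [Finset.mul_sum]
    rw [Finset.sum_comm]
    refine Finset.sum_congr rfl fun σ _ => ?_
    rw [pow_two]
    conv_rhs => rw [x, Finset.mul_sum]
    exact Finset.sum_congr rfl fun f _ => by rw [← x]; ring
  have h3 : ∑ f, (∑ σ, x σ * u σ f) ^ 2 =
      ∑ σ, x σ * ∑ τ : Equiv.Perm (Fin 12), (∏ i, AZ (σ i) (τ i)) * x τ := by
    have e : ∀ σ τ : Equiv.Perm (Fin 12), ∏ i, AZ (σ i) (τ i) = ∑ f, u σ f * u τ f := fun σ τ =>
      (expand (fun i => V (σ i)) fun i => V (τ i)).symm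
    simp only [e, pow_two, Finset.mul_sum, Finset.sum_mul]
    rw [Finset.sum_comm]
    refine Finset.sum_congr rfl fun σ _ => ?_
    rw [Finset.sum_comm]
    refine Finset.sum_congr rfl fun τ _ => Finset.sum_congr rfl fun f _ => by ring
  rw [h2, h3, T_val, x_val] at h1
  rw [per_val, x_val]
  omega

theorem exists_eig {ι : Type} [Fintype ι] [DecidableEq ι] (M : Matrix ι ι ℝ) (hM : M.IsHermitian)
    (c : ℝ) (y : ι → ℝ) (h : c * (y ⬝ᵥ y) < y ⬝ᵥ M *ᵥ y) :
    ∃ (μ : ℝ) (z : ι → ℝ), z ≠ 0 ∧ M *ᵥ z = μ • z ∧ c < μ := by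
  have hB : (c • (1 : Matrix ι ι ℝ) - M).IsHermitian :=
    (isHermitian_one.smul (IsSelfAdjoint.all c)).sub hM
  have h1 : ¬ (c • (1 : Matrix ι ι ℝ) - M).PosSemidef := by
    intro hp
    have := hp.dotProduct_mulVec_nonneg y
    rw [sub_mulVec, smul_mulVec, one_mulVec, star_trivial, dotProduct_sub, dotProduct_smul,
      smul_eq_mul] at this
    linarith
  rw [hB.posSemidef_iff_eigenvalues_nonneg, Pi.le_def] at h1
  push Not at h1
  obtain ⟨j, hj⟩ := h1
  have h2 := hB.mulVec_eigenvectorBasis j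
  rw [sub_mulVec, smul_mulVec, one_mulVec] at h2
  refine ⟨c - hB.eigenvalues j, hB.eigenvectorBasis j, fun h0 => ?_, ?_, by
    simp only [Pi.zero_apply] at hj; linarith⟩
  · exact hB.eigenvectorBasis.orthonormal.ne_zero j (by ext i; exact congrFun h0 i)
  · rw [sub_smul, ← h2, sub_sub_cancel]

theorem main : ∃ A : Matrix (Fin 12) (Fin 12) ℝ, A.PosSemidef ∧
    ∃ (μ : ℝ) (z : Equiv.Perm (Fin 12) → ℝ), z ≠ 0 ∧
      (Matrix.of fun σ τ : Equiv.Perm (Fin 12) => ∏ i, A (σ i) (τ i)) *ᵥ z = μ • z ∧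
      A.permanent < μ := by
  let B : Matrix (Fin 12) (Fin 3) ℝ := Matrix.of fun i l => (V i l : ℝ)
  have hA : ∀ i j, (B * Bᴴ) i j = (AZ i j : ℝ) := fun i j => by
    simp [B, AZ, Matrix.mul_apply]
  refine ⟨B * Bᴴ, posSemidef_self_mul_conjTranspose B, exists_eig _ ?_ _ (fun σ => (x σ : ℝ)) ?_⟩
  · ext σ τ
    simp only [conjTranspose_apply, of_apply, star_trivial, hA, AZ, mul_comm]
  · simp only [permanent, dotProduct, mulVec, of_apply, hA, ← pow_two]
    exact_mod_cast main_int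

end Pool.Agent.H.MP_102303_co
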