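import Pool.Agent.H.MP_102303_co.Data

set_option autoImplicit false

namespace Pool.Agent.H.MP_102303_co

open Finset List

theorem fz_eq {α : Type} (x : ℤ) (k : ℤ → α) : fz x k = k x := by
  rcases x with (_ | n) | (_ | n) <;> rfl

theorem dotA_eq (l1 l2 : List ℤ) (acc : ℤ) :
    dotA l1 l2 acc = (List.zipWith (· * ·) l1 l2).sum + acc := by
  induction l1 generalizing l2 with
  | nil => simp [dotA]
  | cons a l ih =>
    cases l2 with
    | nil => simp [dotA]
    | cons b r =>
      have : dotA (a :: l) (b :: r) acc = a * b + dotA l r acc := rfl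
      rw [this, ih]; simp [add_assoc]

theorem zipK_eq {α : Type} (f : ℤ → ℤ → ℤ) (l1 l2 : List ℤ) (k : List ℤ → α) :
    zipK f l1 l2 k = k (List.zipWith f l1 l2) := by
  induction l1 generalizing l2 k with
  | nil => rfl
  | cons a l ih =>
    cases l2 with
    | nil => rfl
    | cons b r =>
      have : zipK f (a :: l) (b :: r) k = fz (f a b) fun c => zipK f l r fun l => k (c :: l) := rfl
      rw [this, fz_eq, ih]; rfl

theorem mapK_eq {α β : Type} (f : β → ℤ) (l1 : List β) (k : List ℤ → α) :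
    mapK f l1 k = k (l1.map f) := by
  induction l1 generalizing k with
  | nil => rfl
  | cons a l ih =>
    have : mapK f (a :: l) k = fz (f a) fun c => mapK f l fun l => k (c :: l) := rfl
    rw [this, fz_eq, ih]; rfl

theorem prodA_eq (f : List ℤ → ℤ) (l : List (List ℤ)) (acc : ℤ) :
    prodA f l acc = acc * (l.map f).prod := by
  induction l generalizing acc with
  | nil => simp [prodA]
  | cons a l ih =>
    have : prodA f (a :: l) acc = fz (acc * f a) (prodA f l) := rfl
    rw [this, fz_eq, ih]; simp [mul_assoc]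

theorem sq_eq (x : ℤ) : sq x = x ^ 2 := by rw [sq, fz_eq, pow_two]; rfl

theorem zip_ofFn {α β γ : Type} {n : ℕ} (f : α → β → γ) (a : Fin n → α) (b : Fin n → β) :
    List.zipWith f (ofFn a) (ofFn b) = ofFn fun i => f (a i) (b i) := by
  apply List.ext_getElem <;> simp

theorem dot_ofFn {n : ℕ} (a b : Fin n → ℤ) : dotA (ofFn a) (ofFn b) 0 = ∑ i, a i * b i := by
  rw [dotA_eq, zip_ofFn, List.sum_ofFn, add_zero]

theorem sum_cons {n : ℕ} (g : (Fin (n + 1) → Bool) → ℤ) :
    ∑ s, g s = ∑ s : Fin n → Bool, g (Fin.cons false s) + ∑ s : Fin n → Bool, g (Fin.cons true s) := by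
  rw [← (Fin.consEquiv fun _ => Bool).sum_comp, Fintype.sum_prod_type, Fintype.sum_bool, add_comm]
  rfl

theorem SS_cons (tl : List (List ℤ)) (c : List ℤ × List ℤ) (r : List (List ℤ × List ℤ)) (k : ℕ)
    (al be : List ℤ) : SS tl (c :: r) (k + 1) al be =
      SS tl r (k + 1) al (List.zipWith Int.mul be c.2) + SS tl r k (List.zipWith Int.mul al c.1) be := by
  have : SS tl (c :: r) (k + 1) al be = (zipK Int.mul be c.2 fun be' => SS tl r (k + 1) al be') +
    zipK Int.mul al c.1 fun al' => SS tl r k al' be := rfl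
  rw [this, zipK_eq, zipK_eq]

theorem SS_cons0 (tl : List (List ℤ)) (c : List ℤ × List ℤ) (r : List (List ℤ × List ℤ))
    (al be : List ℤ) : SS tl (c :: r) 0 al be = SS tl r 0 al (List.zipWith Int.mul be c.2) := by
  have : SS tl (c :: r) 0 al be = (zipK Int.mul be c.2 fun be' => SS tl r 0 al be') + 0 := rfl
  rw [this, zipK_eq, add_zero]

theorem SS_spec {P Q : ℕ} (t : Fin P → Fin Q → ℤ) (n : ℕ) (c : Fin n → Fin P → ℤ)
    (d : Fin n → Fin Q → ℤ) (k : ℕ) (al : Fin P → ℤ) (be : Fin Q → ℤ) :
    SS (ofFn fun p => ofFn (t p)) (ofFn fun j => (ofFn (c j), ofFn (d j))) k (ofFn al) (ofFn be) =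
      ∑ s : Fin n → Bool, if ∑ j, (s j).toNat = k then
        (∑ p, (al p * ∏ j, if s j then c j p else 1) *
          ∑ q, t p q * (be q * ∏ j, if s j then 1 else d j q)) ^ 2 else 0 := by
  induction n generalizing k al be with
  | zero =>
    cases k with
    | zero =>
      have : SS (ofFn fun p => ofFn (t p)) (ofFn fun j => (ofFn (c j), ofFn (d j))) 0 (ofFn al)
        (ofFn be) = leaf (ofFn fun p => ofFn (t p)) (ofFn al) (ofFn be) := rfl
      rw [this, leaf, mapK_eq, fz_eq, List.map_ofFn]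
      simp only [Function.comp_def, dot_ofFn]
      simp [pow_two]
    | succ k => simp [SS]
  | succ n ih =>
    rw [List.ofFn_succ, sum_cons]
    cases k with
    | zero =>
      rw [SS_cons0, zip_ofFn, ih]
      simp [Fin.sum_univ_succ, Fin.prod_univ_succ, mul_assoc]
    | succ k =>
      rw [SS_cons, zip_ofFn, zip_ofFn, ih, ih]
      simp [Fin.sum_univ_succ, Fin.prod_univ_succ, mul_assoc, add_comm 1]

theorem RR_spec {m r : ℕ} (V : Fin m → Fin r → ℤ) (n : ℕ) (c : Fin n → Fin r → ℤ)
    (x : Fin r → ℤ) :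
    RR (ofFn fun i => ofFn (V i)) (ofFn fun j => ofFn (c j)) (ofFn x) =
      ∑ s : Fin n → Bool, (∏ j, if s j then 1 else -1) *
        ∏ i, ∑ l, V i l * (x l + ∑ j, if s j then c j l else 0) := by
  induction n generalizing x with
  | zero =>
    have : RR (ofFn fun i => ofFn (V i)) (ofFn fun j => ofFn (c j)) (ofFn x) =
      prodA (fun w => dotA w (ofFn x) 0) (ofFn fun i => ofFn (V i)) 1 := rfl
    rw [this, prodA_eq, List.map_ofFn, List.prod_ofFn]
    simp only [Function.comp_def, dot_ofFn]
    simp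
  | succ n ih =>
    rw [List.ofFn_succ, sum_cons]
    have : ∀ w r' y, RR (ofFn fun i => ofFn (V i)) (w :: r') y =
      zipK Int.add y w (RR (ofFn fun i => ofFn (V i)) r') - RR (ofFn fun i => ofFn (V i)) r' y :=
      fun _ _ _ => rfl
    rw [this, zipK_eq, zip_ofFn, ih, ih]
    simp [Fin.sum_univ_succ, Fin.prod_univ_succ, add_assoc]
    ring

theorem NN_spec {P Q r : ℕ} (a : Fin P → Fin r → ℤ) (b : Fin Q → Fin r → ℤ)
    (t : Fin P → Fin Q → ℤ) (n : ℕ) (a' : Fin n → Fin r → ℤ) (t' : Fin n → Fin Q → ℤ) :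
    NN (ofFn fun q => ofFn (b q)) (ofFn fun q => ofFn fun p => t p q) (ofFn fun p => ofFn (a p))
      (ofFn fun p => ofFn (a' p)) (ofFn fun p => ofFn (t' p)) =
      ∑ p', ∑ q, (∑ p, (∑ l, a p l * a' p' l) ^ 4 * t p q) *
        ∑ q', (∑ l, b q l * b q' l) ^ 8 * t' p' q' := by
  induction n with
  | zero => simp [NN]
  | succ n ih =>
    rw [List.ofFn_succ, List.ofFn_succ (f := fun p => ofFn (t' p)), Fin.sum_univ_succ, ← ih]
    have : ∀ bl tT al0 a0 al tr tl, NN bl tT al0 (a0 :: al) (tr :: tl) =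
      (mapK (fun a' => sq (sq (dotA a' a0 0))) al0 fun g =>
        mapK (fun tc => dotA g tc 0) tT fun X =>
        mapK (fun b => mapK (fun b' => sq (sq (sq (dotA b b' 0)))) bl fun h => dotA h tr 0) bl
          fun Y => dotA X Y 0) + NN bl tT al0 al tl := fun _ _ _ _ _ _ _ => rfl
    rw [this]
    simp only [mapK_eq, List.map_ofFn, Function.comp_def, dot_ofFn, sq_eq, ← pow_mul]

theorem ryser {n : ℕ} (M : Fin n → Fin n → ℤ) :
    ∑ σ : Equiv.Perm (Fin n), ∏ i, M (σ i) i = ∑ s : Fin n → Bool, (∏ j, if s j then 1 else -1) *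
      ∏ i, ∑ j, if s j then M j i else 0 := by
  have h1 : ∀ s : Fin n → Bool, (∏ i, ∑ j, if s j then M j i else 0) =
      ∑ f : Fin n → Fin n, (∏ j, if s j = true ∨ j ∉ univ.image f then 1 else 0) *
        ∏ i, M (f i) i := by
    intro s
    rw [Finset.prod_univ_sum, Fintype.piFinset_univ]
    refine Finset.sum_congr rfl fun f _ => ?_
    by_cases h : ∀ i, s (f i) = true
    · rw [Finset.prod_eq_one (f := fun j => if s j = true ∨ j ∉ univ.image f then (1 : ℤ) else 0),
        one_mul]
      · exact Finset.prod_congr rfl fun i _ => if_pos (h i)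
      · intro j _
        rw [if_pos]
        by_contra hc
        push Not at hc
        obtain ⟨i, -, rfl⟩ := Finset.mem_image.1 hc.2
        exact hc.1 (h i)
    · push Not at h
      obtain ⟨i, hi⟩ := h
      rw [Finset.prod_eq_zero (Finset.mem_univ i) (if_neg hi),
        Finset.prod_eq_zero (Finset.mem_univ (f i)) (if_neg (by simp [hi])), zero_mul]
  simp only [h1, Finset.mul_sum, ← mul_assoc]
  rw [Finset.sum_comm]
  simp only [← Finset.sum_mul]
  simp only [← Finset.prod_mul_distrib]
  have h2 : ∀ f : Fin n → Fin n, (∑ s : Fin n → Bool, ∏ j, ((if s j = true then (1 : ℤ) else -1) *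
      if s j = true ∨ j ∉ univ.image f then 1 else 0)) =
      if Function.Bijective f then 1 else 0 := by
    intro f
    have := Finset.prod_univ_sum (fun _ : Fin n => (univ : Finset Bool))
      (fun j b => (if b = true then (1 : ℤ) else -1) * if b = true ∨ j ∉ univ.image f then 1 else 0)
    rw [Fintype.piFinset_univ] at this
    rw [← this]
    split_ifs with h
    · refine Finset.prod_eq_one fun j _ => ?_
      obtain ⟨i, rfl⟩ := h.2 j
      simp
    · rw [← Finite.surjective_iff_bijective] at h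
      obtain ⟨j, hj⟩ := not_forall.1 h
      refine Finset.prod_eq_zero (Finset.mem_univ j) ?_
      have : j ∉ univ.image f := by simpa using hj
      simp [this]
  simp only [h2]
  simp only [ite_mul, one_mul, zero_mul]
  rw [← Finset.sum_filter]
  refine Finset.sum_bij (fun σ _ => (σ : Fin n → Fin n)) (fun σ _ => Finset.mem_filter.2 ⟨Finset.mem_univ _, σ.bijective⟩)
    (fun σ _ τ _ h => Equiv.ext (congrFun h)) (fun f hf => ?_) (fun _ _ => rfl)
  exact ⟨Equiv.ofBijective f (Finset.mem_filter.1 hf).2, Finset.mem_univ _, rfl⟩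

theorem card_true {n : ℕ} (s : Fin n → Bool) :
    Fintype.card {j // s j = true} = ∑ j, (s j).toNat := by
  rw [Fintype.card_subtype, Finset.card_filter]
  exact Finset.sum_congr rfl fun j _ => by cases s j <;> rfl

theorem card_false {n : ℕ} (s : Fin n → Bool) :
    Fintype.card {j // s j = false} = n - ∑ j, (s j).toNat := by
  have := Fintype.card_subtype_compl fun j => s j = true
  rw [card_true, Fintype.card_fin] at this
  rw [← this]
  simp

theorem sum_perm {n k : ℕ} (s0 : Fin n → Bool) (h0 : ∑ j, (s0 j).toNat = k)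
    (Φ : (Fin n → Bool) → ℤ) :
    ∑ σ : Equiv.Perm (Fin n), Φ (s0 ∘ σ) = ((k.factorial * (n - k).factorial : ℕ) : ℤ) *
      ∑ s : Fin n → Bool, if ∑ j, (s j).toNat = k then Φ s else 0 := by
  rw [Finset.sum_comp Φ (fun σ : Equiv.Perm (Fin n) => s0 ∘ σ), ← Finset.sum_filter,
    Finset.mul_sum]
  have key : ∀ s : Fin n → Bool, ∑ j, (s j).toNat = k → ∃ ρ : Equiv.Perm (Fin n), s0 ∘ ρ = s := by
    intro s hs
    refine ⟨Equiv.ofFiberEquiv (f := s) (g := s0) fun b => Fintype.equivOfCardEq ?_,
      funext fun j => Equiv.ofFiberEquiv_map _ j⟩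
    cases b
    · rw [card_false, card_false, hs, h0]
    · rw [card_true, card_true, hs, h0]
  refine Finset.sum_congr ?_ fun s hs => ?_
  · ext s
    simp only [Finset.mem_image, Finset.mem_univ, true_and, Finset.mem_filter]
    refine ⟨?_, key s⟩
    rintro ⟨σ, rfl⟩
    rw [← h0]
    exact Equiv.sum_comp σ fun j => (s0 j).toNat
  · obtain ⟨ρ, rfl⟩ := key s (Finset.mem_filter.1 hs).2
    rw [nsmul_eq_mul]
    congr 2
    have := DomMulAct.stabilizer_card s0
    rw [Fintype.prod_bool, card_true, card_false, h0, Fintype.card_subtype] at this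
    rw [← this]
    refine Finset.card_bij (fun σ _ => σ * ρ⁻¹) (fun σ hσ => ?_) (fun σ _ τ _ h => by simpa using h)
      (fun g hg => ⟨g * ρ, ?_, by simp⟩)
    · simp only [Finset.mem_filter, Finset.mem_univ, true_and] at hσ ⊢
      funext j
      simpa using congrFun hσ (ρ⁻¹ j)
    · simp only [Finset.mem_filter, Finset.mem_univ, true_and] at hg ⊢
      funext j
      simpa using congrFun hg (ρ j)

end Pool.Agent.H.MP_102303_co
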